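import Mathlib
import Pool.Agent.H682R2.DomE

/-!
Let `ρ_r` be the supremum of `γ(D⁻)/γ(D)` over the strongly connected `r`-regular digraphs `D`.
We prove bounds that hold for each fixed `r`: `ρ_r ≥ 3/2` for all `r ≥ 3` and
`log (r+1) - 3 log log (r+1) - 4 ≤ ρ_r ≤ 1 + 1/2 + ⋯ + 1/(r+1)` for all `r ≥ 2`.
(The asymptotic statement `ρ_r = log r + O(log log r)` is in the file `LogAsymptotics`.)

Idea of the lower bound.  Put `k = r + 1`.  A digraph in the class is the same thing as a
connected `k`-regular bipartite graph between points and blocks (a perfect matching of it tells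
which block is the closed out-neighbourhood of which vertex), where a dominating set of `D` is a
family of blocks covering all the points and a dominating set of `D⁻` is a set of points meeting
all the blocks.  Take `k m` points with `m` about `log k`, and `k` partitions of the points into
`m` blocks of size `k`.  One partition gives `γ(D) ≤ m`; the first blocks of the other partitions
are chosen one after the other (conditional expectations) so that every set of about
`m (log k - 3 log log k)` points misses one of them.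
-/

namespace Pool.Agent.Results.MP_9a58dc_co.FixedDegree

open Filter Topology

/-- In the digraph with arc relation `A`, the set `S` is dominating: every vertex outside `S` has
an in-neighbour in `S`. -/
def IsDominating {V : Type} (A : V → V → Prop) (S : Finset V) : Prop :=
  ∀ v, v ∉ S → ∃ u ∈ S, A u v

/-- The domination number `γ(D)`: the least size of a dominating set. -/
noncomputable def gamma {V : Type} (A : V → V → Prop) : ℕ :=
  sInf {k | ∃ S : Finset V, IsDominating A S ∧ S.card = k}

/-- The reverse `D⁻` of the digraph `D` with arc relation `A`. -/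
def reverse {V : Type} (A : V → V → Prop) : V → V → Prop := fun u v => A v u

/-- The digraph with vertex set `Fin n` (`n ≥ 1`) and arc relation `A` is loopless, `r`-regular
(all in-degrees and out-degrees are `r`) and strongly connected. -/
def InClass (r n : ℕ) (A : Fin n → Fin n → Prop) : Prop :=
  0 < n ∧ (∀ v, ¬ A v v) ∧ (∀ v, Set.ncard {u | A u v} = r) ∧
    (∀ v, Set.ncard {u | A v u} = r) ∧ (∀ u v, Relation.ReflTransGen A u v)

/-- The set of all ratios `γ(D⁻)/γ(D)`, where `D` is a strongly connected `r`-regular digraph. -/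
def ratios (r : ℕ) : Set ℝ :=
  {x | ∃ (n : ℕ) (A : Fin n → Fin n → Prop), InClass r n A ∧
    x = (gamma (reverse A) : ℝ) / (gamma A : ℝ)}

/-- `ρ_r`, the supremum of the ratios. -/
noncomputable def rho (r : ℕ) : ℝ := sSup (ratios r)

open Pool.Agent.H682R2 in
lemma ratio_mem {r n m s : ℕ} (hn : 0 < n) (A : Fin n → Fin n → Prop) (hA : Dom.InClass r n A)
    (h1 : Dom.gamma A ≤ m) (h2 : s ≤ Dom.gamma (Dom.rev A)) :
    ∃ x ∈ ratios r, (s : ℝ) ≤ x * m := by
  refine ⟨(gamma (reverse A) : ℝ) / (gamma A : ℝ), ⟨n, A, ⟨hn, hA⟩, rfl⟩, ?_⟩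
  have hg : Dom.gamma A = gamma A := rfl
  have hg2 : Dom.gamma (Dom.rev A) = gamma (reverse A) := rfl
  rw [hg] at h1
  rw [hg2] at h2
  have hpos : 0 < gamma A := by
    have := Dom.le_gamma (r := r) A hA.2.2.1
    rw [hg, Fintype.card_fin] at this
    by_contra h
    have h0 : gamma A = 0 := by omega
    rw [h0] at this
    omega
  have hposR : (0 : ℝ) < gamma A := by exact_mod_cast hpos
  have h1R : (gamma A : ℝ) ≤ m := by exact_mod_cast h1
  have h2R : (s : ℝ) ≤ gamma (reverse A) := by exact_mod_cast h2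
  rw [div_mul_eq_mul_div, le_div_iff₀ hposR]
  calc (s : ℝ) * gamma A ≤ gamma (reverse A) * gamma A :=
        mul_le_mul_of_nonneg_right h2R hposR.le
    _ ≤ gamma (reverse A) * m := mul_le_mul_of_nonneg_left h1R (by positivity)

open Pool.Agent.H682R2 in
lemma ratio_le {r : ℕ} {x : ℝ} (hx : x ∈ ratios r) : x ≤ ((harmonic (r + 1) : ℚ) : ℝ) := by
  obtain ⟨n, A, ⟨hn, hl, hin, hout, _⟩, rfl⟩ := hx
  have h1 := Dom.gamma_rev_le A hl hin hout
  have h2 := Dom.le_gamma (r := r) A hout
  rw [Fintype.card_fin] at h1 h2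
  have hg : Dom.gamma A = gamma A := rfl
  have hg2 : Dom.gamma (Dom.rev A) = gamma (reverse A) := rfl
  rw [hg2] at h1
  rw [hg] at h2
  have hpos : 0 < gamma A := by
    by_contra h
    have h0 : gamma A = 0 := by omega
    rw [h0] at h2
    omega
  have hposR : (0 : ℝ) < gamma A := by exact_mod_cast hpos
  have h2R : (n : ℝ) ≤ gamma A * (r + 1) := by exact_mod_cast h2
  have hr : (0 : ℝ) < (r : ℝ) + 1 := by positivity
  have hH : (0 : ℝ) ≤ ((harmonic (r + 1) : ℚ) : ℝ) := by
    have : 0 < harmonic (r + 1) := harmonic_pos (by omega)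
    exact_mod_cast this.le
  rw [div_le_iff₀ hposR]
  refine h1.trans ?_
  rw [mul_comm]
  apply mul_le_mul_of_nonneg_left _ hH
  rw [div_le_iff₀ hr]
  exact h2R

lemma bdd (r : ℕ) : BddAbove (ratios r) := ⟨_, fun _ hx => ratio_le hx⟩

open Pool.Agent.H682R2 in
lemma nonempty {r : ℕ} (hr : 2 ≤ r) : (ratios r).Nonempty := by
  obtain ⟨A, hA, h1, h2⟩ := Dom.lower_core 1 (r + 1) 0 le_rfl (by omega) (by omega) (by
    have h0 : ((Nat.choose ((r + 1) * 1 - 0) (r + 1) : ℕ) : ℝ) / Nat.choose ((r + 1) * 1) (r + 1)
        = 1 := by simp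
    rw [h0, sub_self, zero_pow (by omega)]
    norm_num)
  obtain ⟨x, hx, _⟩ := ratio_mem (by omega) A hA h1 h2
  exact ⟨x, hx⟩

lemma rho_nonneg (r : ℕ) : 0 ≤ rho r := by
  apply Real.sSup_nonneg
  rintro x ⟨n, A, _, rfl⟩
  positivity

open Pool.Agent.H682R2 in
lemma rho_three_halves {r : ℕ} (hr : 3 ≤ r) : 3 / 2 ≤ rho r := by
  obtain ⟨A, hA, h1, h2⟩ := Dom.three_halves (r + 1) (by omega)
  obtain ⟨x, hx, hx2⟩ := ratio_mem (by omega) A hA h1 h2
  refine le_trans ?_ (le_csSup (bdd r) hx)
  push_cast at hx2
  linarith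

open Pool.Agent.H682R2 in
lemma rho_log {r : ℕ} (hr : 2 ≤ r) :
    Real.log (r + 1) - 3 * Real.log (Real.log (r + 1)) - 4 ≤ rho r := by
  set L := Real.log (r + 1) with hL
  by_cases h0 : L - 3 * Real.log L - 4 ≤ 0
  · exact h0.trans (rho_nonneg r)
  push Not at h0
  by_cases hL10 : L < 10
  · exfalso
    have hL0 : 0 ≤ L := Real.log_nonneg (by
      have : (0 : ℝ) ≤ r := by positivity
      linarith)
    by_cases h4 : L ≤ 1
    · -- here the logarithm of `L` can be slightly negative
      have hL1 : 1 ≤ L := by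
        rw [hL, Real.le_log_iff_exp_le (by positivity)]
        have : (2 : ℝ) ≤ r := by exact_mod_cast hr
        linarith [Real.exp_one_lt_d9]
      have : L = 1 := le_antisymm h4 hL1
      rw [this] at h0
      norm_num at h0
    · push Not at h4
      have hlog : 0 ≤ Real.log L := Real.log_nonneg h4.le
      by_cases h5 : L ≤ 4
      · linarith
      · push Not at h5
        -- log L ≥ log 4 = 2 log 2 > 1.38
        have h6 : Real.log 4 ≤ Real.log L := Real.log_le_log (by norm_num) h5.le
        have h7 : Real.log 4 = 2 * Real.log 2 := by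
          rw [show (4 : ℝ) = 2 ^ 2 by norm_num, Real.log_pow]; norm_num
        have h8 := Real.log_two_gt_d9
        by_cases h9 : L ≤ 8
        · linarith
        · push Not at h9
          have h6 : Real.log 8 ≤ Real.log L := Real.log_le_log (by norm_num) h9.le
          have h7 : Real.log 8 = 3 * Real.log 2 := by
            rw [show (8 : ℝ) = 2 ^ 3 by norm_num, Real.log_pow]; norm_num
          linarith
  · push Not at hL10
    obtain ⟨m, t, hm, hk3, htk, hlt, hτ⟩ := Dom.numerics (r + 1) (by omega) L
      (L - 3 * Real.log L - 4) (by rw [hL]; push_cast; rfl) rfl h0.le hL10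
    obtain ⟨A, hA, h1, h2⟩ := Dom.lower_core m (r + 1) t hm hk3 htk hlt
    obtain ⟨x, hx, hx2⟩ := ratio_mem (by positivity) A hA h1 h2
    refine le_trans ?_ (le_csSup (bdd r) hx)
    have hmR : (0 : ℝ) < m := by exact_mod_cast hm
    push_cast at hx2
    exact le_of_mul_le_mul_right (hτ.trans hx2) hmR

/-- **Bounds for the ratio of the domination numbers of the reverse of a regular digraph and of
the digraph, valid for every fixed degree.** -/
theorem result :
    (∀ r : ℕ, 3 ≤ r → 3 / 2 ≤ rho r) ∧
    (∀ r : ℕ, 2 ≤ r → (ratios r).Nonempty ∧ BddAbove (ratios r) ∧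
      Real.log (r + 1) - 3 * Real.log (Real.log (r + 1)) - 4 ≤ rho r ∧
      rho r ≤ ((harmonic (r + 1) : ℚ) : ℝ)) := by
  have hup : ∀ r : ℕ, 2 ≤ r → rho r ≤ ((harmonic (r + 1) : ℚ) : ℝ) := fun r hr =>
    csSup_le (nonempty hr) fun x hx => ratio_le hx
  exact ⟨fun r hr => rho_three_halves hr,
    fun r hr => ⟨nonempty hr, bdd r, rho_log hr, hup r hr⟩⟩

end Pool.Agent.Results.MP_9a58dc_co.FixedDegree
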